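import Pool.Agent.AEC.StmtsB

/-!
# Squad AEC, row CCL: closure of cardinality classes under unions of chains
-/

set_option autoImplicit false

open FirstOrder FirstOrder.Language Cardinal Set

universe u

namespace Pool.Agent.AEC.H76

theorem card_union_le {J : Type u} {F : J → Type u} {B : Type u} (l : Cardinal.{u})
    (hl : ℵ₀ ≤ l) (hJ : #J ≤ l) (s : ∀ a, F a → B) (hs : ∀ y : B, ∃ a x, s a x = y)
    (hF : ∀ a, #(F a) ≤ l) : #B ≤ l := by
  have h1 : Function.Surjective (fun p : Σ a, F a => s p.1 p.2) := by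
    intro y
    obtain ⟨a, x, h⟩ := hs y
    exact ⟨⟨a, x⟩, h⟩
  refine (Cardinal.mk_le_of_surjective h1).trans ?_
  rw [Cardinal.mk_sigma]
  refine (Cardinal.sum_le_sum _ (fun _ => l) hF).trans ?_
  rw [Cardinal.sum_const, Cardinal.lift_id, Cardinal.lift_id]
  exact (mul_le_mul_left hJ l).trans (Cardinal.mul_eq_self hl).le

theorem ccl : CclStmt.{u} := by
  intro L κ K l hl
  refine ⟨?_, ?_⟩
  · intro J _ _ _ _ hJ F m B s hsm hs hF
    exact card_union_le l hl hJ (fun a x => s a x) hs hF
  · intro J _ _ _ _ hJ F m B s hsm hs hF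
    refine le_antisymm (card_union_le l hl hJ (fun a x => s a x) hs fun a => (hF a).le) ?_
    obtain ⟨a⟩ : Nonempty J := inferInstance
    rw [← hF a]
    exact Cardinal.mk_le_of_injective (s a).injective

end Pool.Agent.AEC.H76
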